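import Mathlib
import Pool.Agent.Lib.MP_c89ac5_lc.Comp

set_option autoImplicit false

open FirstOrder

namespace Pool.Agent.Results.MP_c89ac5_lc.AutComputable

/-- The relational signature with relation symbols indexed by the naturals in every arity. -/
def lang : FirstOrder.Language.{0, 0} := ⟨fun _ => Empty, fun _ => ℕ⟩

/-- Pointwise convergence topology on a group of permutations of the naturals. -/
@[reducible] def ptTop (G : Subgroup (Equiv.Perm ℕ)) : TopologicalSpace G :=
  TopologicalSpace.induced (fun g : G => (⇑g.1 : ℕ → ℕ)) inferInstance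

theorem cont_of {G H : Subgroup (Equiv.Perm ℕ)} (φ : G → H)
    (h : ∀ x : G, ∀ n : ℕ, ∃ m : ℕ, ∀ y : G,
      (∀ k : ℕ, k < m → y.1 k = x.1 k) → (φ y).1 n = (φ x).1 n) :
    @Continuous G H (ptTop G) (ptTop H) φ := by
  letI := ptTop G
  refine continuous_induced_rng.2 (continuous_pi fun n => ?_)
  refine continuous_iff_continuousAt.2 fun x => ?_
  obtain ⟨m, hm⟩ := h x n
  have hc : ∀ k, Continuous fun y : G => y.1 k := fun k =>
    (continuous_apply k).comp (continuous_induced_dom (f := fun g : G => (⇑g.1 : ℕ → ℕ)))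
  have hev : ∀ᶠ y in nhds x, ∀ k ∈ Finset.range m, (y : G).1 k = x.1 k := by
    rw [Filter.eventually_all_finset]
    intro k _
    exact (hc k).continuousAt.eventually
      ((isOpen_discrete {x.1 k}).mem_nhds (Set.mem_singleton _))
  refine (continuousAt_const (y := (φ x).1 n)).congr ?_
  filter_upwards [hev] with y hy
  exact (hm y fun k hk => hy k (Finset.mem_range.2 hk)).symm

theorem result (G : Subgroup (Equiv.Perm ℕ)) (T : List ℕ × List ℕ → Prop)
    (hT : ComputablePred T)
    (hG : ∀ f g : ℕ → ℕ, (∀ n : ℕ, T ((List.range n).map f, (List.range n).map g)) ↔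
      ∃ σ ∈ G, ⇑σ = f ∧ ⇑σ⁻¹ = g) :
    ∃ M : lang.Structure ℕ,
      ComputablePred (fun p : ℕ × List ℕ =>
        @FirstOrder.Language.Structure.RelMap lang ℕ M p.2.length p.1 p.2.get) ∧
      ∃ H : Subgroup (Equiv.Perm ℕ),
        (∀ σ : Equiv.Perm ℕ, σ ∈ H ↔
          ∃ e : @FirstOrder.Language.Equiv lang ℕ ℕ M M, e.toEquiv = σ) ∧
        ∃ φ : G ≃* H, @Continuous G H (ptTop G) (ptTop H) φ ∧
          @Continuous H G (ptTop H) (ptTop G) φ.symm := by
  obtain ⟨t, ht, rfl⟩ := ComputablePred.computable_iff.1 hT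
  obtain ⟨R, hR, H, hH, φ, h1, h2⟩ := Pool.Agent.Lib.MP_c89ac5_lc.main_theorem G
    (fun a b => t (a, b)) ht hG
  let M : lang.Structure ℕ :=
    { funMap := fun f _ => Empty.elim f
      RelMap := fun {_} (i : ℕ) x => R i (List.ofFn x) = true }
  refine ⟨M, ?_, H, fun σ => ?_, φ, cont_of φ h1, cont_of φ.symm h2⟩
  · refine (Pool.Agent.Lib.MP_c89ac5_lc.CP.bool hR).of_eq fun p => ?_
    change _ ↔ R p.1 (List.ofFn p.2.get) = true
    rw [List.ofFn_get]
  · rw [hH]
    constructor
    · intro h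
      refine ⟨@FirstOrder.Language.Equiv.mk lang ℕ ℕ M M σ (fun f _ => Empty.elim f) ?_, rfl⟩
      intro n r x
      change R r (List.ofFn (σ ∘ x)) = true ↔ R r (List.ofFn x) = true
      rw [← List.map_ofFn, h]
    · rintro ⟨e, rfl⟩ i l
      have := @FirstOrder.Language.Equiv.map_rel' lang ℕ ℕ M M e l.length i l.get
      change R i (List.ofFn (e.toEquiv ∘ l.get)) = true ↔ R i (List.ofFn l.get) = true at this
      rw [← List.map_ofFn, List.ofFn_get] at this
      exact Bool.eq_iff_iff.2 this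

end Pool.Agent.Results.MP_c89ac5_lc.AutComputable
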